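import Mathlib

/-!
# Linear independence of the trigonometric functions of the plane with distinct frequencies
-/

set_option autoImplicit false

namespace Pool.Agent.H170.TT

open Complex

/-- The character of the plane with frequency `w`. -/
noncomputable def chi (w : ℝ × ℝ) : Multiplicative (ℝ × ℝ) →* ℂ where
  toFun p := Complex.exp (((w.1 * (Multiplicative.toAdd p).1 + w.2 * (Multiplicative.toAdd p).2 : ℝ) : ℂ) * I)
  map_one' := by simp
  map_mul' p q := by
    rw [← Complex.exp_add]
    congr 1
    simp only [toAdd_mul, Prod.fst_add, Prod.snd_add]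
    push_cast
    ring

theorem chi_inj : Function.Injective chi := by
  intro w w' h
  -- compare the derivatives at zero in the two directions
  have key : ∀ (a b : ℝ), (∀ t : ℝ, Complex.exp (((a * t : ℝ) : ℂ) * I) = Complex.exp (((b * t : ℝ) : ℂ) * I)) →
      a = b := by
    intro a b hab
    have hd : ∀ c : ℝ, HasDerivAt (fun t : ℝ => Complex.exp (((c * t : ℝ) : ℂ) * I)) ((c : ℂ) * I) 0 := by
      intro c
      have h1 : HasDerivAt (fun t : ℝ => (((c * t : ℝ) : ℂ) * I)) ((c : ℂ) * I) 0 := by
        have h2 : HasDerivAt (fun t : ℝ => ((c * t : ℝ) : ℂ)) (c : ℂ) 0 := by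
          have h3 : HasDerivAt (fun t : ℝ => c * t) c 0 := by
            simpa using (hasDerivAt_id (0 : ℝ)).const_mul c
          exact h3.ofReal_comp
        exact h2.mul_const I
      have h4 := h1.cexp
      simpa using h4
    have h1 := hd a
    rw [funext hab] at h1
    have h2 := h1.unique (hd b)
    have h3 : (a : ℂ) = b := mul_right_cancel₀ I_ne_zero h2
    exact_mod_cast h3
  have h1 : ∀ t : ℝ, Complex.exp (((w.1 * t : ℝ) : ℂ) * I) = Complex.exp (((w'.1 * t : ℝ) : ℂ) * I) := by
    intro t
    have := congrArg (fun f : Multiplicative (ℝ × ℝ) →* ℂ => f (Multiplicative.ofAdd (t, 0))) h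
    simpa [chi] using this
  have h2 : ∀ t : ℝ, Complex.exp (((w.2 * t : ℝ) : ℂ) * I) = Complex.exp (((w'.2 * t : ℝ) : ℂ) * I) := by
    intro t
    have := congrArg (fun f : Multiplicative (ℝ × ℝ) →* ℂ => f (Multiplicative.ofAdd (0, t))) h
    simpa [chi] using this
  exact Prod.ext (key _ _ h1) (key _ _ h2)

/-- If the frequencies are nonzero and distinct up to sign, the trigonometric functions with these
frequencies and the constant functions are linearly independent. -/
theorem indep {ι : Type*} [Fintype ι] (w : ι → ℝ × ℝ) (h0 : ∀ i, w i ≠ 0)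
    (h1 : ∀ i j, i ≠ j → w i ≠ w j ∧ w i ≠ -w j) (c : ℝ) (α β : ι → ℝ)
    (h : ∀ p : ℝ × ℝ, c + ∑ i, (α i * Real.cos ((w i).1 * p.1 + (w i).2 * p.2) +
      β i * Real.sin ((w i).1 * p.1 + (w i).2 * p.2)) = 0) (i : ι) : α i = 0 ∧ β i = 0 := by
  classical
  -- the family of all characters involved
  let f : Option (ι ⊕ ι) → ℝ × ℝ := fun o => match o with
    | none => 0
    | some (Sum.inl j) => w j
    | some (Sum.inr j) => -w j
  have hf : Function.Injective f := by
    rintro (_ | (a | a)) (_ | (b | b)) hab
    · rfl
    · exact absurd hab.symm (h0 b)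
    · exact absurd (neg_eq_zero.mp hab.symm) (h0 b)
    · exact absurd hab (h0 a)
    · by_cases e : a = b
      · rw [e]
      · exact absurd hab (h1 a b e).1
    · by_cases e : a = b
      · subst e
        exfalso
        have h2 : w a = -w a := hab
        have h3 : w a = 0 := by
          have h4 : (2 : ℝ) • w a = 0 := by
            rw [two_smul]
            nth_rewrite 1 [h2]
            simp
          exact (smul_eq_zero.mp h4).resolve_left (by norm_num)
        exact h0 a h3
      · exact absurd hab (h1 a b e).2
    · exact absurd (neg_eq_zero.mp hab) (h0 a)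
    · by_cases e : a = b
      · subst e
        exfalso
        have h2 : -w a = w a := hab
        have h3 : w a = 0 := by
          have h4 : (2 : ℝ) • w a = 0 := by
            rw [two_smul]
            nth_rewrite 1 [← h2]
            simp
          exact (smul_eq_zero.mp h4).resolve_left (by norm_num)
        exact h0 a h3
      · have h2 : -w a = w b := hab
        exact absurd (by rw [← h2, neg_neg]) (h1 a b e).2
    · by_cases e : a = b
      · rw [e]
      · exact absurd (neg_injective hab) (h1 a b e).1
  have hli : LinearIndependent ℂ (fun o : Option (ι ⊕ ι) => (chi (f o) : Multiplicative (ℝ × ℝ) → ℂ)) :=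
    (linearIndependent_monoidHom (Multiplicative (ℝ × ℝ)) ℂ).comp (fun o => chi (f o))
      (chi_inj.comp hf)
  let g : Option (ι ⊕ ι) → ℂ := fun o => match o with
    | none => c
    | some (Sum.inl j) => ((α j : ℂ) - (β j : ℂ) * I) / 2
    | some (Sum.inr j) => ((α j : ℂ) + (β j : ℂ) * I) / 2
  have hsum : ∑ o, g o • (fun o : Option (ι ⊕ ι) => (chi (f o) : Multiplicative (ℝ × ℝ) → ℂ)) o = 0 := by
    funext p
    have h2 := congrArg (fun x : ℝ => (x : ℂ)) (h (Multiplicative.toAdd p))
    simp only [Fintype.sum_option, Fintype.sum_sum_type, Pi.add_apply, Pi.smul_apply,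
      Finset.sum_apply, Pi.zero_apply, smul_eq_mul]
    rw [← Finset.sum_add_distrib]
    rw [Complex.ofReal_zero] at h2
    rw [← h2]
    push_cast
    congr 1
    · simp [g, f, chi]
    · refine Finset.sum_congr rfl fun j _ => ?_
      simp only [g, f, chi, MonoidHom.coe_mk, OneHom.coe_mk, Prod.fst_neg, Prod.snd_neg]
      set θ : ℝ := (w j).1 * (Multiplicative.toAdd p).1 + (w j).2 * (Multiplicative.toAdd p).2 with hθ
      have e1 : -(w j).1 * (Multiplicative.toAdd p).1 + -(w j).2 * (Multiplicative.toAdd p).2 = -θ := by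
        rw [hθ]; ring
      have e2 : ((w j).1 : ℂ) * ((Multiplicative.toAdd p).1 : ℂ) +
          ((w j).2 : ℂ) * ((Multiplicative.toAdd p).2 : ℂ) = (θ : ℂ) := by
        rw [hθ]; push_cast; ring
      rw [e1, e2]
      rw [Complex.exp_mul_I]
      have e3 : Complex.exp (((-θ : ℝ) : ℂ) * I) = Complex.cos θ - Complex.sin θ * I := by
        rw [Complex.exp_mul_I]
        push_cast
        rw [Complex.cos_neg, Complex.sin_neg]
        ring
      rw [e3]
      linear_combination (-(β j : ℂ) * Complex.sin θ) * Complex.I_sq
  have hz := Fintype.linearIndependent_iff.mp hli g hsum (some (Sum.inl i))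
  have hz' : ((α i : ℂ) - (β i : ℂ) * I) / 2 = 0 := hz
  have h3 : (α i : ℂ) - (β i : ℂ) * I = 0 := by
    have := (div_eq_zero_iff.mp hz').resolve_right (by norm_num)
    exact this
  have h4 := congrArg Complex.re h3
  have h5 := congrArg Complex.im h3
  simp at h4 h5
  exact ⟨h4, h5⟩

end Pool.Agent.H170.TT
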