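import Mathlib
import Pool.Agent.Results.MP_1643f9_gt.FullEvenSphere
import Pool.Agent.H170.TT.Ind

/-!
# 2-type surfaces lying fully in even-dimensional spheres of all dimensions at least eight
-/

set_option autoImplicit false

namespace Pool.Agent.H170.TT

open scoped ContDiff
open Pool.Agent.Results.MP_1643f9_gt.FullEvenSphere

/-! ### Joining two maps -/

variable {n : ℕ}

/-- The isometric isomorphism `E⁹ × Eⁿ → E⁹⁺ⁿ`, as a linear map. -/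
def jn : (EuclideanSpace ℝ (Fin 9) × EuclideanSpace ℝ (Fin n)) →ₗ[ℝ]
    EuclideanSpace ℝ (Fin (9 + n)) where
  toFun v := WithLp.toLp 2 (Fin.append (fun i => v.1 i) (fun i => v.2 i))
  map_add' v w := by
    ext i
    refine Fin.addCases (fun i => ?_) (fun i => ?_) i <;> simp
  map_smul' c v := by
    ext i
    refine Fin.addCases (fun i => ?_) (fun i => ?_) i <;> simp

theorem jn_left (v : EuclideanSpace ℝ (Fin 9)) (w : EuclideanSpace ℝ (Fin n)) (i : Fin 9) :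
    jn (v, w) (Fin.castAdd n i) = v i := by simp [jn]

theorem jn_right (v : EuclideanSpace ℝ (Fin 9)) (w : EuclideanSpace ℝ (Fin n)) (i : Fin n) :
    jn (v, w) (Fin.natAdd 9 i) = w i := by simp [jn]

theorem jn_inner (v v' : EuclideanSpace ℝ (Fin 9)) (w w' : EuclideanSpace ℝ (Fin n)) :
    inner ℝ (jn (v, w)) (jn (v', w')) = inner ℝ v v' + inner ℝ w w' := by
  simp only [PiLp.inner_apply, Fin.sum_univ_add, jn_left, jn_right]

theorem jn_surj (w : EuclideanSpace ℝ (Fin (9 + n))) :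
    ∃ (w1 : EuclideanSpace ℝ (Fin 9)) (w2 : EuclideanSpace ℝ (Fin n)), w = jn (w1, w2) := by
  refine ⟨WithLp.toLp 2 fun i => w (Fin.castAdd n i), WithLp.toLp 2 fun i => w (Fin.natAdd 9 i), ?_⟩
  ext i
  refine Fin.addCases (fun i => ?_) (fun i => ?_) i <;> simp [jn]

/-- The continuous version. -/
noncomputable def jL : (EuclideanSpace ℝ (Fin 9) × EuclideanSpace ℝ (Fin n)) →L[ℝ]
    EuclideanSpace ℝ (Fin (9 + n)) := LinearMap.toContinuousLinearMap jn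

theorem jL_apply (v : EuclideanSpace ℝ (Fin 9) × EuclideanSpace ℝ (Fin n)) : jL v = jn v := rfl

theorem fderiv_jn {φ : ℝ × ℝ → EuclideanSpace ℝ (Fin 9)} {ψ : ℝ × ℝ → EuclideanSpace ℝ (Fin n)}
    (hφ : Differentiable ℝ φ) (hψ : Differentiable ℝ ψ) (p v : ℝ × ℝ) :
    fderiv ℝ (fun q => jn (φ q, ψ q)) p v = jn (fderiv ℝ φ p v, fderiv ℝ ψ p v) := by
  have h1 : HasFDerivAt (fun q => jL (φ q, ψ q))
      (jL.comp ((fderiv ℝ φ p).prod (fderiv ℝ ψ p))) p :=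
    jL.hasFDerivAt.comp p ((hφ p).hasFDerivAt.prodMk (hψ p).hasFDerivAt)
  have h2 : (fun q => jn (φ q, ψ q)) = fun q => jL (φ q, ψ q) := rfl
  rw [h2, h1.fderiv]
  rfl

theorem pdu_jn {φ : ℝ × ℝ → EuclideanSpace ℝ (Fin 9)} {ψ : ℝ × ℝ → EuclideanSpace ℝ (Fin n)}
    (hφ : Differentiable ℝ φ) (hψ : Differentiable ℝ ψ) :
    pdu (fun q => jn (φ q, ψ q)) = fun q => jn (pdu φ q, pdu ψ q) :=
  funext fun p => fderiv_jn hφ hψ p _

theorem pdv_jn {φ : ℝ × ℝ → EuclideanSpace ℝ (Fin 9)} {ψ : ℝ × ℝ → EuclideanSpace ℝ (Fin n)}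
    (hφ : Differentiable ℝ φ) (hψ : Differentiable ℝ ψ) :
    pdv (fun q => jn (φ q, ψ q)) = fun q => jn (pdv φ q, pdv ψ q) :=
  funext fun p => fderiv_jn hφ hψ p _

theorem contDiff_jn {φ : ℝ × ℝ → EuclideanSpace ℝ (Fin 9)} {ψ : ℝ × ℝ → EuclideanSpace ℝ (Fin n)}
    (hφ : ContDiff ℝ ∞ φ) (hψ : ContDiff ℝ ∞ ψ) : ContDiff ℝ ∞ (fun q => jn (φ q, ψ q)) := by
  have : (fun q => jn (φ q, ψ q)) = fun q => jL (φ q, ψ q) := rfl
  rw [this]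
  exact jL.contDiff.comp (hφ.prodMk hψ)

/-! ### The nine-dimensional part -/

noncomputable def A1 (β : ℝ) : Fin 5 → EuclideanSpace ℝ (Fin 9) :=
  ![!₂[0, β, 0, 0, 0, 0, 0, 0, 0],
    !₂[0, 0, 0, 2 * √5, 0, 0, 0, 0, 0],
    !₂[0, 0, 0, 2 * √5, 0, 0, 0, 0, 0],
    !₂[0, 0, 0, 0, 0, 4, 0, 0, 0],
    !₂[0, 0, 0, 0, 0, 0, 0, 4, 0]]

noncomputable def B1 (β : ℝ) : Fin 5 → EuclideanSpace ℝ (Fin 9) :=
  ![!₂[0, 0, β, 0, 0, 0, 0, 0, 0],
    !₂[0, 0, 0, 0, 2 * √5, 0, 0, 0, 0],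
    !₂[0, 0, 0, 0, 2 * √5, 0, 0, 0, 0],
    !₂[0, 0, 0, 0, 0, 0, 4, 0, 0],
    !₂[0, 0, 0, 0, 0, 0, 0, 0, 4]]

noncomputable def cc (c : ℝ) : EuclideanSpace ℝ (Fin 9) := !₂[0, c, 0, 0, 0, 0, 0, 0, 0]

/-- The first part of the surface. -/
noncomputable def X (c β : ℝ) (p : ℝ × ℝ) : EuclideanSpace ℝ (Fin 9) :=
  cc c + wsum a1 b1 (A1 β) (B1 β) p + wsum a2 b2 A2 B2 p

variable (c β : ℝ)

theorem diff_wsum {m k : ℕ} (a b : Fin k → ℝ) (A B : Fin k → EuclideanSpace ℝ (Fin m)) :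
    Differentiable ℝ (wsum a b A B) := (contDiff_wsum a b A B).differentiable (by simp)

theorem pdu_X : pdu (X c β) = fun p =>
    wsum a1 b1 (fun j => a1 j • B1 β j) (fun j => -(a1 j • A1 β j)) p +
    wsum a2 b2 (fun j => a2 j • B2 j) (fun j => -(a2 j • A2 j)) p := by
  funext p
  have h1 := diff_wsum a1 b1 (A1 β) (B1 β) p
  have h2 := diff_wsum a2 b2 A2 B2 p
  have h : HasFDerivAt (X c β) (fderiv ℝ (wsum a1 b1 (A1 β) (B1 β)) p +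
      fderiv ℝ (wsum a2 b2 A2 B2) p) p := by
    have := ((hasFDerivAt_const (cc c) p).add h1.hasFDerivAt).add h2.hasFDerivAt
    rw [zero_add] at this
    exact this
  rw [← pdu_wsum, ← pdu_wsum]
  unfold pdu
  rw [h.fderiv]
  rfl

theorem pdv_X : pdv (X c β) = fun p =>
    wsum a1 b1 (fun j => b1 j • B1 β j) (fun j => -(b1 j • A1 β j)) p +
    wsum a2 b2 (fun j => b2 j • B2 j) (fun j => -(b2 j • A2 j)) p := by
  funext p
  have h1 := diff_wsum a1 b1 (A1 β) (B1 β) p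
  have h2 := diff_wsum a2 b2 A2 B2 p
  have h : HasFDerivAt (X c β) (fderiv ℝ (wsum a1 b1 (A1 β) (B1 β)) p +
      fderiv ℝ (wsum a2 b2 A2 B2) p) p := by
    have := ((hasFDerivAt_const (cc c) p).add h1.hasFDerivAt).add h2.hasFDerivAt
    rw [zero_add] at this
    exact this
  rw [← pdv_wsum, ← pdv_wsum]
  unfold pdv
  rw [h.fderiv]
  rfl

theorem gE_X (p : ℝ × ℝ) : gE (X c β) p = 2592 + 64 * β ^ 2 := by
  unfold gE
  rw [inner_eq, pdu_X]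
  simp only [wsum, wave, Fin.sum_univ_succ, a1, b1, A1, B1, a2, b2, A2, B2]
  simp
  have e1 := sq_id 28 8 (-p.1 + √15 * p.2) (8 * p.1)
  rw [show 8 * p.1 + (-p.1 + √15 * p.2) = 7 * p.1 + √15 * p.2 by ring] at e1
  have e2 := sq_id 28 8 (-p.1 + -(√15 * p.2)) (8 * p.1)
  rw [show 8 * p.1 + (-p.1 + -(√15 * p.2)) = 7 * p.1 + -(√15 * p.2) by ring] at e2
  have e3 := sq_id (8 * √5) (-(8 * √5)) (-(4 * p.1) + 4 * √3 * p.2) (8 * p.1)
  rw [show 8 * p.1 + (-(4 * p.1) + 4 * √3 * p.2) = 4 * p.1 + 4 * √3 * p.2 by ring] at e3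
  have e4 := Real.sin_sq_add_cos_sq (8 * p.1)
  have e5 : Real.cos (8 * p.1) = 1 - 2 * Real.sin (4 * p.1) ^ 2 := by
    rw [show 8 * p.1 = 2 * (4 * p.1) by ring, Real.cos_two_mul']
    linear_combination Real.sin_sq_add_cos_sq (4 * p.1)
  have h2 : √2 ^ 2 = 2 := Real.sq_sqrt (by norm_num)
  have h5 : √5 ^ 2 = 5 := Real.sq_sqrt (by norm_num)
  linear_combination e1 + e2 + e3 + 64 * β ^ 2 * e4 + (256 * Real.sin (4 * p.1) ^ 2) * h2 +
    (128 - 128 * Real.cos (8 * p.1)) * h5 + 256 * e5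

theorem gG_X (p : ℝ × ℝ) : gG (X c β) p = 4320 := by
  unfold gG
  rw [inner_eq, pdv_X]
  simp only [wsum, wave, Fin.sum_univ_succ, a1, b1, A1, B1, a2, b2, A2, B2]
  simp
  have e1 := sq_id (4 * √15) (-(8 * √15)) (-p.1 + √15 * p.2) (8 * p.1)
  rw [show 8 * p.1 + (-p.1 + √15 * p.2) = 7 * p.1 + √15 * p.2 by ring] at e1
  have e2 := sq_id (4 * √15) (-(8 * √15)) (-p.1 + -(√15 * p.2)) (8 * p.1)
  rw [show 8 * p.1 + (-p.1 + -(√15 * p.2)) = 7 * p.1 + -(√15 * p.2) by ring] at e2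
  have e3 := sq_id (8 * √3 * √5) (8 * √3 * √5) (-(4 * p.1) + 4 * √3 * p.2) (8 * p.1)
  rw [show 8 * p.1 + (-(4 * p.1) + 4 * √3 * p.2) = 4 * p.1 + 4 * √3 * p.2 by ring] at e3
  have h3 : √3 ^ 2 = 3 := Real.sq_sqrt (by norm_num)
  have h5 : √5 ^ 2 = 5 := Real.sq_sqrt (by norm_num)
  have h15 : √15 ^ 2 = 15 := Real.sq_sqrt (by norm_num)
  linear_combination e1 + e2 + e3 +
    (128 * √5 ^ 2 * (1 + Real.cos (8 * p.1))) * h3 + (384 * (1 + Real.cos (8 * p.1))) * h5 +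
    (160 - 128 * Real.cos (8 * p.1)) * h15

theorem gF_X (p : ℝ × ℝ) : gF (X c β) p = 0 := by
  unfold gF
  rw [inner_eq, pdu_X, pdv_X]
  simp only [wsum, wave, Fin.sum_univ_succ, a1, b1, A1, B1, a2, b2, A2, B2]
  simp
  have e1 := mul_id 28 8 (4 * √15) (-(8 * √15)) (-p.1 + √15 * p.2) (8 * p.1)
  rw [show 8 * p.1 + (-p.1 + √15 * p.2) = 7 * p.1 + √15 * p.2 by ring] at e1
  have e2 := mul_id 28 8 (-(4 * √15)) (8 * √15) (-p.1 + -(√15 * p.2)) (8 * p.1)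
  rw [show 8 * p.1 + (-p.1 + -(√15 * p.2)) = 7 * p.1 + -(√15 * p.2) by ring] at e2
  have e3 := mul_id (8 * √5) (-(8 * √5)) (8 * √3 * √5) (8 * √3 * √5)
    (-(4 * p.1) + 4 * √3 * p.2) (8 * p.1)
  rw [show 8 * p.1 + (-(4 * p.1) + 4 * √3 * p.2) = 4 * p.1 + 4 * √3 * p.2 by ring] at e3
  linear_combination e1 + e2 + e3

theorem norm_X (hc : c * β = 36) (p : ℝ × ℝ) :
    inner ℝ (X c β p) (X c β p) = 216 + c ^ 2 + β ^ 2 := by
  rw [inner_eq]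
  simp only [X, cc, wsum, wave, Fin.sum_univ_succ, a1, b1, A1, B1, a2, b2, A2, B2]
  simp
  have e1 := sq_id 4 (-8) (-p.1 + √15 * p.2) (8 * p.1)
  rw [show 8 * p.1 + (-p.1 + √15 * p.2) = 7 * p.1 + √15 * p.2 by ring] at e1
  have e2 := sq_id 4 (-8) (-p.1 + -(√15 * p.2)) (8 * p.1)
  rw [show 8 * p.1 + (-p.1 + -(√15 * p.2)) = 7 * p.1 + -(√15 * p.2) by ring] at e2
  have e3 := sq_id (2 * √5) (2 * √5) (-(4 * p.1) + 4 * √3 * p.2) (8 * p.1)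
  rw [show 8 * p.1 + (-(4 * p.1) + 4 * √3 * p.2) = 4 * p.1 + 4 * √3 * p.2 by ring] at e3
  have e4 := Real.sin_sq_add_cos_sq (8 * p.1)
  have e5 : Real.cos (8 * p.1) = 2 * Real.cos (4 * p.1) ^ 2 - 1 := by
    rw [show 8 * p.1 = 2 * (4 * p.1) by ring, Real.cos_two_mul]
  have h2 : √2 ^ 2 = 2 := Real.sq_sqrt (by norm_num)
  have h5 : √5 ^ 2 = 5 := Real.sq_sqrt (by norm_num)
  linear_combination e1 + e2 + e3 + β ^ 2 * e4 + (16 * Real.cos (4 * p.1) ^ 2) * h2 +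
    (2 * Real.cos (8 * p.1)) * hc +
    (8 + 8 * Real.cos (8 * p.1)) * h5 - 16 * e5

end Pool.Agent.H170.TT
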