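import Mathlib
import Pool.Agent.H170.TT.Surf

/-!
# The additional waves and the surfaces
-/

set_option autoImplicit false

namespace Pool.Agent.H170.TT

open scoped ContDiff
open Pool.Agent.Results.MP_1643f9_gt.FullEvenSphere

variable {r : ℕ}

noncomputable def AY (s : ℝ) (j : Fin r) : EuclideanSpace ℝ (Fin (r + r)) :=
  EuclideanSpace.single (Fin.castAdd r j) s

noncomputable def BY (s : ℝ) (j : Fin r) : EuclideanSpace ℝ (Fin (r + r)) :=
  EuclideanSpace.single (Fin.natAdd r j) s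

/-- A combination of the additional directions. -/
noncomputable def Z (s : ℝ) (x y : Fin r → ℝ) : EuclideanSpace ℝ (Fin (r + r)) :=
  ∑ j, (x j • AY s j + y j • BY s j)

theorem AY_left (s : ℝ) (j i : Fin r) : AY s j (Fin.castAdd r i) = if i = j then s else 0 := by
  unfold AY
  rw [EuclideanSpace.single_apply]
  by_cases h : i = j
  · rw [if_pos h, if_pos (congrArg _ h)]
  · rw [if_neg h, if_neg fun h' => h (Fin.castAdd_injective _ _ h')]

theorem AY_right (s : ℝ) (j i : Fin r) : AY s j (Fin.natAdd r i) = 0 := by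
  unfold AY
  rw [EuclideanSpace.single_apply, if_neg]
  intro h
  have := congrArg Fin.val h
  rw [Fin.val_natAdd, Fin.val_castAdd] at this
  omega

theorem BY_left (s : ℝ) (j i : Fin r) : BY s j (Fin.castAdd r i) = 0 := by
  unfold BY
  rw [EuclideanSpace.single_apply, if_neg]
  intro h
  have := congrArg Fin.val h
  rw [Fin.val_natAdd, Fin.val_castAdd] at this
  omega

theorem BY_right (s : ℝ) (j i : Fin r) : BY s j (Fin.natAdd r i) = if i = j then s else 0 := by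
  unfold BY
  rw [EuclideanSpace.single_apply]
  by_cases h : i = j
  · rw [if_pos h, if_pos (congrArg _ h)]
  · rw [if_neg h, if_neg fun h' => h (Fin.natAdd_injective _ _ h')]

theorem Z_left (s : ℝ) (x y : Fin r → ℝ) (i : Fin r) : Z s x y (Fin.castAdd r i) = s * x i := by
  unfold Z
  simp only [WithLp.ofLp_sum, Finset.sum_apply, WithLp.ofLp_add, WithLp.ofLp_smul, Pi.add_apply,
    Pi.smul_apply, AY_left, BY_left, smul_eq_mul, mul_zero, add_zero, mul_ite,
    Finset.sum_ite_eq, Finset.mem_univ, if_true]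
  ring

theorem Z_right (s : ℝ) (x y : Fin r → ℝ) (i : Fin r) : Z s x y (Fin.natAdd r i) = s * y i := by
  unfold Z
  simp only [WithLp.ofLp_sum, Finset.sum_apply, WithLp.ofLp_add, WithLp.ofLp_smul, Pi.add_apply,
    Pi.smul_apply, AY_right, BY_right, smul_eq_mul, mul_zero, zero_add, mul_ite,
    Finset.sum_ite_eq, Finset.mem_univ, if_true]
  ring

theorem inner_Z (s : ℝ) (x y x' y' : Fin r → ℝ) :
    inner ℝ (Z s x y) (Z s x' y') = s ^ 2 * ∑ j, (x j * x' j + y j * y' j) := by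
  rw [PiLp.inner_apply, Fin.sum_univ_add]
  simp only [Z_left, Z_right]
  rw [← Finset.sum_add_distrib, Finset.mul_sum]
  refine Finset.sum_congr rfl fun j _ => ?_
  simp only [RCLike.inner_apply, conj_trivial]
  ring

/-- The additional waves. -/
noncomputable def Y (P Q : Fin r → ℝ) (s : ℝ) : ℝ × ℝ → EuclideanSpace ℝ (Fin (r + r)) :=
  wsum P Q (AY s) (BY s)

variable (P Q : Fin r → ℝ) (s : ℝ)

theorem Y_eq (p : ℝ × ℝ) : Y P Q s p = Z s (fun j => Real.cos (P j * p.1 + Q j * p.2))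
    (fun j => Real.sin (P j * p.1 + Q j * p.2)) := rfl

theorem pdu_Y (p : ℝ × ℝ) : pdu (Y P Q s) p =
    Z s (fun j => -(P j * Real.sin (P j * p.1 + Q j * p.2)))
      (fun j => P j * Real.cos (P j * p.1 + Q j * p.2)) := by
  unfold Y
  rw [pdu_wsum]
  unfold wsum Z wave
  refine Finset.sum_congr rfl fun j _ => ?_
  module

theorem pdv_Y (p : ℝ × ℝ) : pdv (Y P Q s) p =
    Z s (fun j => -(Q j * Real.sin (P j * p.1 + Q j * p.2)))
      (fun j => Q j * Real.cos (P j * p.1 + Q j * p.2)) := by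
  unfold Y
  rw [pdv_wsum]
  unfold wsum Z wave
  refine Finset.sum_congr rfl fun j _ => ?_
  module

theorem gE_Y (p : ℝ × ℝ) : gE (Y P Q s) p = s ^ 2 * ∑ j, P j ^ 2 := by
  unfold gE
  rw [pdu_Y, inner_Z]
  congr 1
  refine Finset.sum_congr rfl fun j _ => ?_
  linear_combination P j ^ 2 * Real.sin_sq_add_cos_sq (P j * p.1 + Q j * p.2)

theorem gG_Y (p : ℝ × ℝ) : gG (Y P Q s) p = s ^ 2 * ∑ j, Q j ^ 2 := by
  unfold gG
  rw [pdv_Y, inner_Z]
  congr 1
  refine Finset.sum_congr rfl fun j _ => ?_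
  linear_combination Q j ^ 2 * Real.sin_sq_add_cos_sq (P j * p.1 + Q j * p.2)

theorem gF_Y (p : ℝ × ℝ) : gF (Y P Q s) p = s ^ 2 * ∑ j, P j * Q j := by
  unfold gF
  rw [pdu_Y, pdv_Y, inner_Z]
  congr 1
  refine Finset.sum_congr rfl fun j _ => ?_
  linear_combination P j * Q j * Real.sin_sq_add_cos_sq (P j * p.1 + Q j * p.2)

theorem norm_Y (p : ℝ × ℝ) : inner ℝ (Y P Q s p) (Y P Q s p) = s ^ 2 * r := by
  rw [Y_eq, inner_Z]
  congr 1
  have : ∀ j : Fin r, Real.cos (P j * p.1 + Q j * p.2) * Real.cos (P j * p.1 + Q j * p.2) +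
      Real.sin (P j * p.1 + Q j * p.2) * Real.sin (P j * p.1 + Q j * p.2) = 1 := fun j => by
    linear_combination Real.sin_sq_add_cos_sq (P j * p.1 + Q j * p.2)
  simp [this]

/-- The surface. -/
noncomputable def surf (c β : ℝ) (p : ℝ × ℝ) : EuclideanSpace ℝ (Fin (9 + (r + r))) :=
  jn (X c β p, Y P Q s p)

/-- The conditions on the additional frequencies and on the other parameters. -/
structure Par (P Q : Fin r → ℝ) (s c β : ℝ) : Prop where
  hs : s ≠ 0
  hβ : β ≠ 0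
  hc : c * β = 36
  hPQ : ∀ j, P j ^ 2 + Q j ^ 2 = 64
  hQ : ∀ j, Q j ^ 2 ≠ 0 ∧ Q j ^ 2 ≠ 48 ∧ Q j ^ 2 ≠ 15
  hdist : ∀ i j, i ≠ j → (P i, Q i) ≠ (P j, Q j) ∧ (P i, Q i) ≠ -(P j, Q j)
  hF : ∑ j, P j * Q j = 0
  hE : 2592 + 64 * β ^ 2 + s ^ 2 * ∑ j, P j ^ 2 = 4320 + s ^ 2 * ∑ j, Q j ^ 2

variable {P Q s} {c β : ℝ}

theorem diff_X (c β : ℝ) : Differentiable ℝ (X c β) := by
  unfold X
  exact ((differentiable_const _).add (diff_wsum _ _ _ _)).add (diff_wsum _ _ _ _)

theorem diff_Y (P Q : Fin r → ℝ) (s : ℝ) : Differentiable ℝ (Y P Q s) := diff_wsum _ _ _ _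

theorem smooth_X (c β : ℝ) : ContDiff ℝ ∞ (X c β) := by
  unfold X
  exact (contDiff_const.add (contDiff_wsum _ _ _ _)).add (contDiff_wsum _ _ _ _)

theorem pdu_surf (P Q : Fin r → ℝ) (s c β : ℝ) :
    pdu (surf P Q s c β) = fun p => jn (pdu (X c β) p, pdu (Y P Q s) p) :=
  pdu_jn (diff_X c β) (diff_Y P Q s)

theorem pdv_surf (P Q : Fin r → ℝ) (s c β : ℝ) :
    pdv (surf P Q s c β) = fun p => jn (pdv (X c β) p, pdv (Y P Q s) p) :=
  pdv_jn (diff_X c β) (diff_Y P Q s)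

/-- The conformal factor. -/
noncomputable def KK (Q : Fin r → ℝ) (s : ℝ) : ℝ := 4320 + s ^ 2 * ∑ j, Q j ^ 2

theorem KK_pos (Q : Fin r → ℝ) (s : ℝ) : 0 < KK Q s := by
  unfold KK
  have : 0 ≤ ∑ j, Q j ^ 2 := Finset.sum_nonneg fun j _ => sq_nonneg _
  positivity

theorem gE_surf (h : Par P Q s c β) (p : ℝ × ℝ) : gE (surf P Q s c β) p = KK Q s := by
  have h1 := gE_X c β p
  have h2 := gE_Y P Q s p
  unfold gE at h1 h2 ⊢
  rw [pdu_surf, jn_inner, h1, h2, h.hE, KK]

theorem gG_surf (P Q : Fin r → ℝ) (s c β : ℝ) (p : ℝ × ℝ) :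
    gG (surf P Q s c β) p = KK Q s := by
  have h1 := gG_X c β p
  have h2 := gG_Y P Q s p
  unfold gG at h1 h2 ⊢
  rw [pdv_surf, jn_inner, h1, h2, KK]

theorem gF_surf (h : Par P Q s c β) (p : ℝ × ℝ) : gF (surf P Q s c β) p = 0 := by
  have h1 := gF_X c β p
  have h2 := gF_Y P Q s p
  unfold gF at h1 h2 ⊢
  rw [pdu_surf, pdv_surf, jn_inner, h1, h2, h.hF]
  ring

theorem immersion_surf (h : Par P Q s c β) : IsImmersion (surf P Q s c β) := by
  refine ⟨contDiff_jn (smooth_X c β) (contDiff_wsum _ _ _ _), fun p => ?_⟩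
  rw [LinearIndependent.pair_iff]
  intro u t hst
  set x := surf P Q s c β
  have hK := KK_pos Q s
  have hE : inner ℝ (pdu x p) (pdu x p) = KK Q s := gE_surf h p
  have hF : inner ℝ (pdu x p) (pdv x p) = (0 : ℝ) := gF_surf h p
  have hG : inner ℝ (pdv x p) (pdv x p) = KK Q s := gG_surf P Q s c β p
  have h1 : inner ℝ (pdu x p) (u • pdu x p + t • pdv x p) = (0 : ℝ) := by
    rw [hst, inner_zero_right]
  have h2 : inner ℝ (u • pdu x p + t • pdv x p) (pdv x p) = (0 : ℝ) := by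
    rw [hst, inner_zero_left]
  rw [inner_add_right, inner_smul_right, inner_smul_right, hE, hF] at h1
  rw [inner_add_left, real_inner_smul_left, real_inner_smul_left, hF, hG] at h2
  constructor
  · have : u * KK Q s = 0 := by linarith
    exact (mul_eq_zero.mp this).resolve_right hK.ne'
  · have : t * KK Q s = 0 := by linarith
    exact (mul_eq_zero.mp this).resolve_right hK.ne'

/-- The flat Laplace operator of a pair of sums of waves with the same eigenvalue. -/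
theorem lap_pair {k l n : ℕ} (a b : Fin k → ℝ) (A B : Fin k → EuclideanSpace ℝ (Fin 9))
    (a' b' : Fin l → ℝ) (A' B' : Fin l → EuclideanSpace ℝ (Fin n)) (μ : ℝ)
    (h : ∀ j, a j ^ 2 + b j ^ 2 = μ) (h' : ∀ j, a' j ^ 2 + b' j ^ 2 = μ) (p : ℝ × ℝ) :
    pdu (pdu fun q => jn (wsum a b A B q, wsum a' b' A' B' q)) p +
      pdv (pdv fun q => jn (wsum a b A B q, wsum a' b' A' B' q)) p =
      -(μ • jn (wsum a b A B p, wsum a' b' A' B' p)) := by
  have e1 : pdu (pdu fun q => jn (wsum a b A B q, wsum a' b' A' B' q)) p =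
      jn (pdu (pdu (wsum a b A B)) p, pdu (pdu (wsum a' b' A' B')) p) := by
    rw [pdu_jn (diff_wsum _ _ _ _) (diff_wsum _ _ _ _)]
    have d1 : Differentiable ℝ (pdu (wsum a b A B)) := by
      rw [show pdu (wsum a b A B) = _ from funext fun q => pdu_wsum a b A B q]
      exact diff_wsum _ _ _ _
    have d2 : Differentiable ℝ (pdu (wsum a' b' A' B')) := by
      rw [show pdu (wsum a' b' A' B') = _ from funext fun q => pdu_wsum a' b' A' B' q]
      exact diff_wsum _ _ _ _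
    rw [pdu_jn d1 d2]
  have e2 : pdv (pdv fun q => jn (wsum a b A B q, wsum a' b' A' B' q)) p =
      jn (pdv (pdv (wsum a b A B)) p, pdv (pdv (wsum a' b' A' B')) p) := by
    rw [pdv_jn (diff_wsum _ _ _ _) (diff_wsum _ _ _ _)]
    have d1 : Differentiable ℝ (pdv (wsum a b A B)) := by
      rw [show pdv (wsum a b A B) = _ from funext fun q => pdv_wsum a b A B q]
      exact diff_wsum _ _ _ _
    have d2 : Differentiable ℝ (pdv (wsum a' b' A' B')) := by
      rw [show pdv (wsum a' b' A' B') = _ from funext fun q => pdv_wsum a' b' A' B' q]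
      exact diff_wsum _ _ _ _
    rw [pdv_jn d1 d2]
  rw [e1, e2, ← map_add, Prod.mk_add_mk, flat_laplacian_wsum a b A B μ h p,
    flat_laplacian_wsum a' b' A' B' μ h' p, ← map_smul, ← map_neg]
  rfl

theorem twoType_surf (h : Par P Q s c β) : IsTwoType (surf P Q s c β) := by
  have hK := KK_pos Q s
  let Z0 : Fin 0 → EuclideanSpace ℝ (Fin (r + r)) := fun j => j.elim0
  let z0 : Fin 0 → ℝ := fun j => j.elim0
  have hw0 : ∀ p, wsum z0 z0 Z0 Z0 p = 0 := fun p => by simp [wsum]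
  refine ⟨jn (cc c, 0), fun p => jn (wsum a1 b1 (A1 β) (B1 β) p, Y P Q s p),
    fun p => jn (wsum a2 b2 A2 B2 p, wsum z0 z0 Z0 Z0 p), 64 / KK Q s, 16 / KK Q s, ?_,
    contDiff_jn (contDiff_wsum _ _ _ _) (contDiff_wsum _ _ _ _),
    contDiff_jn (contDiff_wsum _ _ _ _) (contDiff_wsum _ _ _ _), ?_, ?_, ?_, ?_, ?_⟩
  · intro he
    rw [div_left_inj' hK.ne'] at he
    norm_num at he
  · intro a
    by_contra hcon
    push Not at hcon
    have h0 : jn (wsum a1 b1 (A1 β) (B1 β) ((0 : ℝ), (0 : ℝ)), Y P Q s ((0 : ℝ), (0 : ℝ)))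
        (Fin.castAdd (r + r) 1) =
        jn (wsum a1 b1 (A1 β) (B1 β) (Real.pi / 8, (0 : ℝ)), Y P Q s (Real.pi / 8, (0 : ℝ)))
        (Fin.castAdd (r + r) 1) := by
      rw [hcon (0, 0), hcon (Real.pi / 8, 0)]
    rw [jn_left, jn_left] at h0
    simp [wsum, wave, Fin.sum_univ_succ, a1, b1, A1, B1, mul_div_cancel₀] at h0
    exact h.hβ (by linarith)
  · intro a
    by_contra hcon
    push Not at hcon
    have h0 : jn (wsum a2 b2 A2 B2 ((0 : ℝ), (0 : ℝ)), wsum z0 z0 Z0 Z0 ((0 : ℝ), (0 : ℝ)))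
        (Fin.castAdd (r + r) 0) =
        jn (wsum a2 b2 A2 B2 (Real.pi / 4, (0 : ℝ)), wsum z0 z0 Z0 Z0 (Real.pi / 4, (0 : ℝ)))
        (Fin.castAdd (r + r) 0) := by
      rw [hcon (0, 0), hcon (Real.pi / 4, 0)]
    rw [jn_left, jn_left] at h0
    simp [wsum, wave, Fin.sum_univ_succ, a2, b2, A2, B2, mul_div_cancel₀] at h0
    have h2 : 0 < √2 := Real.sqrt_pos.mpr (by norm_num)
    linarith
  · intro p
    rw [← map_add, ← map_add, Prod.mk_add_mk, Prod.mk_add_mk, hw0, zero_add, add_zero]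
    rfl
  · intro p
    rw [lap_of_flat (surf P Q s c β) _ (KK Q s) hK (gE_surf h) (gF_surf h) (gG_surf P Q s c β)]
    have := lap_pair a1 b1 (A1 β) (B1 β) P Q (AY s) (BY s) 64 mu1 h.hPQ p
    unfold Y
    rw [this]
    module
  · intro p
    rw [lap_of_flat (surf P Q s c β) _ (KK Q s) hK (gE_surf h) (gF_surf h) (gG_surf P Q s c β)]
    have := lap_pair a2 b2 A2 B2 z0 z0 Z0 Z0 16 mu2 (fun j => j.elim0) p
    rw [this]
    module

end Pool.Agent.H170.TT
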