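import Mathlib
import Pool.Agent.H170.TT.Extra

/-!
# Fullness and the choice of the parameters
-/

set_option autoImplicit false

namespace Pool.Agent.H170.TT

open scoped ContDiff
open Pool.Agent.Results.MP_1643f9_gt.FullEvenSphere

variable {r : ℕ} {P Q : Fin r → ℝ} {s c β : ℝ}

/-- The frequencies of the nine-dimensional part. -/
noncomputable def fb : Fin 5 ⊕ Fin 3 → ℝ × ℝ
  | Sum.inl j => (a1 j, b1 j)
  | Sum.inr j => (a2 j, b2 j)

theorem fb_dist (i j : Fin 5 ⊕ Fin 3) (h : i ≠ j) : fb i ≠ fb j ∧ fb i ≠ -fb j := by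
  have h3 : 0 < √3 := Real.sqrt_pos.mpr (by norm_num)
  have h15 : 0 < √15 := Real.sqrt_pos.mpr (by norm_num)
  constructor
  · intro he
    apply h
    have e1 := congrArg Prod.fst he
    have e2 := congrArg Prod.snd he
    clear h he
    rcases i with i | i <;> rcases j with j | j <;> fin_cases i <;> fin_cases j <;>
    first
      | rfl
      | (exfalso
         simp only [fb, a1, b1, a2, b2, Fin.zero_eta, Fin.mk_one, Fin.reduceFinMk,
           Matrix.cons_val_zero, Matrix.cons_val_one, Matrix.cons_val] at e1 e2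
         first
           | (norm_num at e1; done)
           | linarith)
  · intro he
    have e1 := congrArg Prod.fst he
    have e2 := congrArg Prod.snd he
    rw [Prod.fst_neg] at e1
    rw [Prod.snd_neg] at e2
    clear he
    rcases i with i | i <;> rcases j with j | j <;> fin_cases i <;> fin_cases j <;>
    first
      | exact h rfl
      | (simp only [fb, a1, b1, a2, b2, Fin.zero_eta, Fin.mk_one, Fin.reduceFinMk,
           Matrix.cons_val_zero, Matrix.cons_val_one, Matrix.cons_val] at e1 e2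
         first
           | (norm_num at e1; done)
           | linarith)

theorem fb_ne (i : Fin 5 ⊕ Fin 3) : fb i ≠ 0 := by
  intro he
  have e1 := congrArg Prod.fst he
  rcases i with i | i <;> fin_cases i <;> norm_num [fb, a1, a2] at e1

theorem fb_sq (i : Fin 5 ⊕ Fin 3) :
    (fb i).2 ^ 2 = 0 ∨ (fb i).2 ^ 2 = 48 ∨ (fb i).2 ^ 2 = 15 := by
  have h3 : √3 ^ 2 = 3 := Real.sq_sqrt (by norm_num)
  have h15 : √15 ^ 2 = 15 := Real.sq_sqrt (by norm_num)
  rcases i with i | i <;> fin_cases i <;> simp [fb, b1, b2, mul_pow, h3, h15] <;> norm_num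

/-- All frequencies. -/
noncomputable def fr (P Q : Fin r → ℝ) : (Fin 5 ⊕ Fin 3) ⊕ Fin r → ℝ × ℝ
  | Sum.inl j => fb j
  | Sum.inr j => (P j, Q j)

theorem fr_ne (h : Par P Q s c β) (i : (Fin 5 ⊕ Fin 3) ⊕ Fin r) : fr P Q i ≠ 0 := by
  rcases i with i | i
  · exact fb_ne i
  · intro he
    have e1 : P i = 0 := congrArg Prod.fst he
    have e2 : Q i = 0 := congrArg Prod.snd he
    have := h.hPQ i
    rw [e1, e2] at this
    norm_num at this

theorem mixed (h : Par P Q s c β) (i : Fin 5 ⊕ Fin 3) (j : Fin r) :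
    (fb i).2 ^ 2 ≠ Q j ^ 2 := by
  intro he
  have := h.hQ j
  rcases fb_sq i with h1 | h1 | h1
  · exact this.1 (by rw [← he, h1])
  · exact this.2.1 (by rw [← he, h1])
  · exact this.2.2 (by rw [← he, h1])

theorem fr_dist (h : Par P Q s c β) (i j : (Fin 5 ⊕ Fin 3) ⊕ Fin r) (hij : i ≠ j) :
    fr P Q i ≠ fr P Q j ∧ fr P Q i ≠ -fr P Q j := by
  rcases i with i | i <;> rcases j with j | j
  · exact fb_dist i j fun e => hij (by rw [e])
  · constructor
    · intro he
      have e2 : (fb i).2 = Q j := congrArg Prod.snd he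
      exact mixed h i j (by rw [e2])
    · intro he
      have e2 : (fb i).2 = -Q j := congrArg Prod.snd he
      exact mixed h i j (by rw [e2]; ring)
  · constructor
    · intro he
      have e2 : Q i = (fb j).2 := congrArg Prod.snd he
      exact mixed h j i (by rw [e2])
    · intro he
      have e2 : Q i = -(fb j).2 := congrArg Prod.snd he
      exact mixed h j i (by rw [e2]; ring)
  · exact h.hdist i j fun e => hij (by rw [e])

theorem full_surf (h : Par P Q s c β) (w : EuclideanSpace ℝ (Fin (9 + (r + r)))) (t : ℝ)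
    (hw : ∀ p, inner ℝ w (surf P Q s c β p) = t) : w = 0 := by
  obtain ⟨w1, w2, rfl⟩ := jn_surj w
  let α : (Fin 5 ⊕ Fin 3) ⊕ Fin r → ℝ := fun i => match i with
    | Sum.inl (Sum.inl j) => inner ℝ w1 (A1 β j)
    | Sum.inl (Sum.inr j) => inner ℝ w1 (A2 j)
    | Sum.inr j => inner ℝ w2 (AY s j)
  let γ : (Fin 5 ⊕ Fin 3) ⊕ Fin r → ℝ := fun i => match i with
    | Sum.inl (Sum.inl j) => inner ℝ w1 (B1 β j)
    | Sum.inl (Sum.inr j) => inner ℝ w1 (B2 j)
    | Sum.inr j => inner ℝ w2 (BY s j)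
  have key := indep (fr P Q) (fr_ne h) (fr_dist h) (inner ℝ w1 (cc c) - t) α γ (by
    intro p
    have h1 := hw p
    unfold surf at h1
    rw [jn_inner] at h1
    unfold X Y wsum wave at h1
    rw [inner_add_right, inner_add_right, inner_sum, inner_sum, inner_sum] at h1
    simp only [inner_add_right, real_inner_smul_right] at h1
    rw [Fintype.sum_sum_type, Fintype.sum_sum_type]
    simp only [fr, fb, α, γ]
    have e1 : ∀ x : Fin 5, inner ℝ w1 (A1 β x) * Real.cos (a1 x * p.1 + b1 x * p.2) +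
        inner ℝ w1 (B1 β x) * Real.sin (a1 x * p.1 + b1 x * p.2) =
        Real.cos (a1 x * p.1 + b1 x * p.2) * inner ℝ w1 (A1 β x) +
        Real.sin (a1 x * p.1 + b1 x * p.2) * inner ℝ w1 (B1 β x) := fun x => by ring
    have e2 : ∀ x : Fin 3, inner ℝ w1 (A2 x) * Real.cos (a2 x * p.1 + b2 x * p.2) +
        inner ℝ w1 (B2 x) * Real.sin (a2 x * p.1 + b2 x * p.2) =
        Real.cos (a2 x * p.1 + b2 x * p.2) * inner ℝ w1 (A2 x) +
        Real.sin (a2 x * p.1 + b2 x * p.2) * inner ℝ w1 (B2 x) := fun x => by ring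
    have e3 : ∀ x : Fin r, inner ℝ w2 (AY s x) * Real.cos (P x * p.1 + Q x * p.2) +
        inner ℝ w2 (BY s x) * Real.sin (P x * p.1 + Q x * p.2) =
        Real.cos (P x * p.1 + Q x * p.2) * inner ℝ w2 (AY s x) +
        Real.sin (P x * p.1 + Q x * p.2) * inner ℝ w2 (BY s x) := fun x => by ring
    simp only [e1, e2, e3]
    linarith)
  have hβ := h.hβ
  have hs := h.hs
  have h5 : 0 < √5 := Real.sqrt_pos.mpr (by norm_num)
  have h2 : 0 < √2 := Real.sqrt_pos.mpr (by norm_num)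
  have hw1 : w1 = 0 := by
    have k0 : inner ℝ w1 (A2 0) = (0 : ℝ) := (key (Sum.inl (Sum.inr 0))).1
    have k1 : inner ℝ w1 (A1 β 0) = (0 : ℝ) := (key (Sum.inl (Sum.inl 0))).1
    have k2 : inner ℝ w1 (B1 β 0) = (0 : ℝ) := (key (Sum.inl (Sum.inl 0))).2
    have k3 : inner ℝ w1 (A1 β 1) = (0 : ℝ) := (key (Sum.inl (Sum.inl 1))).1
    have k4 : inner ℝ w1 (B1 β 1) = (0 : ℝ) := (key (Sum.inl (Sum.inl 1))).2
    have k5 : inner ℝ w1 (A1 β 3) = (0 : ℝ) := (key (Sum.inl (Sum.inl 3))).1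
    have k6 : inner ℝ w1 (B1 β 3) = (0 : ℝ) := (key (Sum.inl (Sum.inl 3))).2
    have k7 : inner ℝ w1 (A1 β 4) = (0 : ℝ) := (key (Sum.inl (Sum.inl 4))).1
    have k8 : inner ℝ w1 (B1 β 4) = (0 : ℝ) := (key (Sum.inl (Sum.inl 4))).2
    rw [inner_eq] at k0 k1 k2 k3 k4 k5 k6 k7 k8
    simp [A1, B1, A2, h2.ne', h5.ne', hβ] at k0 k1 k2 k3 k4 k5 k6 k7 k8
    ext i
    fin_cases i <;> simpa
  have hw2 : w2 = 0 := by
    ext i
    refine Fin.addCases (fun i => ?_) (fun i => ?_) i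
    · have k : inner ℝ w2 (AY s i) = (0 : ℝ) := (key (Sum.inr i)).1
      unfold AY at k
      rw [EuclideanSpace.inner_single_right] at k
      simpa [hs] using k
    · have k : inner ℝ w2 (BY s i) = (0 : ℝ) := (key (Sum.inr i)).2
      unfold BY at k
      rw [EuclideanSpace.inner_single_right] at k
      rcases mul_eq_zero.mp k with k | k
      · exact absurd k hs
      · exact k
  rw [hw1, hw2]
  exact map_zero jn

theorem liesFully_surf (h : Par P Q s c β) : LiesFullyInHypersphere (surf P Q s c β) := by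
  have hR : 0 < 216 + c ^ 2 + β ^ 2 + s ^ 2 * r := by positivity
  refine ⟨⟨0, √(216 + c ^ 2 + β ^ 2 + s ^ 2 * r), Real.sqrt_pos.mpr hR, fun p => ?_⟩,
    fun w t hw => ?_⟩
  · rw [sub_zero]
    have : ‖surf P Q s c β p‖ ^ 2 = 216 + c ^ 2 + β ^ 2 + s ^ 2 * r := by
      rw [← real_inner_self_eq_norm_sq]
      unfold surf
      rw [jn_inner, norm_X c β h.hc, norm_Y]
    rw [← this, Real.sqrt_sq (norm_nonneg _)]
  · by_contra hcon
    push Not at hcon
    exact hw (full_surf h w t hcon)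

/-! ### The frequencies -/

noncomputable def qq (t : ℕ) : ℝ := 3 / ((t : ℝ) + 1)

noncomputable def pq (t : ℕ) : ℝ := √(64 - qq t ^ 2)

theorem qq_pos (t : ℕ) : 0 < qq t := by unfold qq; positivity

theorem qq_le (t : ℕ) : qq t ≤ 3 := by
  unfold qq
  rw [div_le_iff₀ (by positivity)]
  have : (0 : ℝ) ≤ t := Nat.cast_nonneg t
  linarith

theorem qq_sq_le (t : ℕ) : qq t ^ 2 ≤ 9 := by
  have := qq_le t
  have := qq_pos t
  nlinarith

theorem qq_inj {i j : ℕ} (h : qq i = qq j) : i = j := by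
  unfold qq at h
  rw [div_eq_div_iff (by positivity) (by positivity)] at h
  have : (i : ℝ) = j := by linarith
  exact_mod_cast this

theorem pq_pos (t : ℕ) : 0 < pq t := Real.sqrt_pos.mpr (by have := qq_sq_le t; linarith)

theorem pq_sq (t : ℕ) : pq t ^ 2 = 64 - qq t ^ 2 :=
  Real.sq_sqrt (by have := qq_sq_le t; linarith)

/-- The frequencies, indexed conveniently. -/
noncomputable def f0 {t e : ℕ} : (Fin t × Bool) ⊕ Fin e → ℝ × ℝ
  | Sum.inl (i, true) => (pq i, qq i)
  | Sum.inl (i, false) => (pq i, -qq i)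
  | Sum.inr _ => (0, 8)

theorem exists_freq0 (t e : ℕ) (he : e ≤ 1) :
    (∀ j : (Fin t × Bool) ⊕ Fin e, (f0 j).1 ^ 2 + (f0 j).2 ^ 2 = 64) ∧
    (∀ j : (Fin t × Bool) ⊕ Fin e, (f0 j).2 ^ 2 ≠ 0 ∧ (f0 j).2 ^ 2 ≠ 48 ∧ (f0 j).2 ^ 2 ≠ 15) ∧
    (∀ i j : (Fin t × Bool) ⊕ Fin e, i ≠ j → f0 i ≠ f0 j ∧ f0 i ≠ -f0 j) ∧
    ∑ j : (Fin t × Bool) ⊕ Fin e, (f0 j).1 * (f0 j).2 = 0 := by
  refine ⟨?_, ?_, ?_, ?_⟩
  · rintro (⟨i, _ | _⟩ | i)
    · simp only [f0]; rw [pq_sq]; ring
    · simp only [f0]; rw [pq_sq]; ring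
    · simp only [f0]; norm_num
  · rintro (⟨i, _ | _⟩ | i)
    · have h1 := qq_pos i
      have h2 := qq_sq_le i
      have h3 : 0 < qq i ^ 2 := by positivity
      simp only [f0, neg_sq]
      exact ⟨by linarith, by linarith, by linarith⟩
    · have h1 := qq_pos i
      have h2 := qq_sq_le i
      have h3 : 0 < qq i ^ 2 := by positivity
      simp only [f0]
      exact ⟨by linarith, by linarith, by linarith⟩
    · simp only [f0]; norm_num
  · rintro (⟨i, _ | _⟩ | i) (⟨j, _ | _⟩ | j) hij <;>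
      simp only [f0, ne_eq, Prod.mk.injEq, Prod.neg_mk, not_and]
    · have h1 := pq_pos i
      have h2 := pq_pos j
      refine ⟨fun _ h => hij ?_, fun h => by linarith⟩
      have := qq_inj (neg_injective h)
      rw [Fin.ext this]
    · have h1 := qq_pos i
      have h2 := qq_pos j
      have h3 := pq_pos i
      have h4 := pq_pos j
      exact ⟨fun _ h => by linarith, fun h => by linarith⟩
    · have h1 := pq_pos i
      exact ⟨fun h => by linarith, fun h => by linarith⟩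
    · have h1 := qq_pos i
      have h2 := qq_pos j
      have h3 := pq_pos i
      have h4 := pq_pos j
      exact ⟨fun _ h => by linarith, fun h => by linarith⟩
    · have h1 := pq_pos i
      have h2 := pq_pos j
      refine ⟨fun _ h => hij ?_, fun h => by linarith⟩
      have := qq_inj h
      rw [Fin.ext this]
    · have h1 := pq_pos i
      exact ⟨fun h => by linarith, fun h => by linarith⟩
    · have h1 := pq_pos j
      exact ⟨fun h => by linarith, fun h => by linarith⟩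
    · have h1 := pq_pos j
      exact ⟨fun h => by linarith, fun h => by linarith⟩
    · exfalso
      apply hij
      have : i = j := by
        apply Fin.ext
        omega
      rw [this]
  · rw [Fintype.sum_sum_type, Fintype.sum_prod_type]
    simp [f0]

theorem exists_freq (r : ℕ) : ∃ P Q : Fin r → ℝ, (∀ j, P j ^ 2 + Q j ^ 2 = 64) ∧
    (∀ j, Q j ^ 2 ≠ 0 ∧ Q j ^ 2 ≠ 48 ∧ Q j ^ 2 ≠ 15) ∧
    (∀ i j, i ≠ j → (P i, Q i) ≠ (P j, Q j) ∧ (P i, Q i) ≠ -(P j, Q j)) ∧
    ∑ j, P j * Q j = 0 := by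
  obtain ⟨h1, h2, h3, h4⟩ := exists_freq0 (r / 2) (r % 2) (by omega)
  have hcard : Fintype.card ((Fin (r / 2) × Bool) ⊕ Fin (r % 2)) = r := by
    simp
    omega
  let φ := (Fintype.equivFinOfCardEq hcard).symm
  refine ⟨fun j => (f0 (φ j)).1, fun j => (f0 (φ j)).2, fun j => h1 _, fun j => h2 _,
    fun i j hij => h3 _ _ fun e => hij (φ.injective e), ?_⟩
  rw [← h4]
  exact Equiv.sum_comp φ fun j => (f0 j).1 * (f0 j).2

theorem exists_par (r : ℕ) : ∃ (P Q : Fin r → ℝ) (s c β : ℝ), Par P Q s c β := by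
  obtain ⟨P, Q, h1, h2, h3, h4⟩ := exists_freq r
  set D : ℝ := ∑ j, (Q j ^ 2 - P j ^ 2) with hD
  have hDle : -(64 * (r : ℝ)) ≤ D := by
    have : ∑ _j : Fin r, (-64 : ℝ) ≤ D := by
      refine Finset.sum_le_sum fun j _ => ?_
      have := h1 j
      nlinarith [sq_nonneg (Q j)]
    simp at this
    linarith
  have hr : (0 : ℝ) < (r : ℝ) + 1 := by positivity
  have hs2 : (√(1 / ((r : ℝ) + 1))) ^ 2 = 1 / ((r : ℝ) + 1) := Real.sq_sqrt (by positivity)
  have hpos : 0 < 27 + 1 / ((r : ℝ) + 1) * D / 64 := by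
    have h5 : -(64 * (r : ℝ)) / ((r : ℝ) + 1) ≤ 1 / ((r : ℝ) + 1) * D := by
      rw [div_mul_eq_mul_div, one_mul]
      exact div_le_div_of_nonneg_right hDle hr.le
    have h6 : -64 ≤ -(64 * (r : ℝ)) / ((r : ℝ) + 1) := by
      rw [le_div_iff₀ hr]
      linarith
    linarith
  have hb2 : (√(27 + 1 / ((r : ℝ) + 1) * D / 64)) ^ 2 = 27 + 1 / ((r : ℝ) + 1) * D / 64 :=
    Real.sq_sqrt hpos.le
  have hb : √(27 + 1 / ((r : ℝ) + 1) * D / 64) ≠ 0 := (Real.sqrt_pos.mpr hpos).ne'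
  refine ⟨P, Q, √(1 / ((r : ℝ) + 1)), 36 / √(27 + 1 / ((r : ℝ) + 1) * D / 64),
    √(27 + 1 / ((r : ℝ) + 1) * D / 64), ?_, hb, ?_, h1, h2, h3, h4, ?_⟩
  · exact (Real.sqrt_pos.mpr (by positivity)).ne'
  · exact div_mul_cancel₀ _ hb
  · rw [hb2, hs2]
    have : D = ∑ j, Q j ^ 2 - ∑ j, P j ^ 2 := by rw [hD, Finset.sum_sub_distrib]
    rw [this]
    ring

end Pool.Agent.H170.TT
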